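import Mathlib

set_option autoImplicit false

namespace Pool.Agent.Helper32.Gam

open Finset

/-- The sign character of `ZMod 2`. -/
def sg (x : ZMod 2) : ℤ := if x = 0 then 1 else -1

theorem sg_add : ∀ x y : ZMod 2, sg (x + y) = sg x * sg y := by decide

theorem sg_zero : sg 0 = 1 := rfl

theorem sg_ne : ∀ x : ZMod 2, x ≠ 0 → sg x = -1 := by decide

theorem sg_mul_self : ∀ x : ZMod 2, sg x * sg x = 1 := by decide

/-- A nonzero functional is balanced. -/
theorem sum_sg_eq_zero {A : Type*} [AddCommGroup A] [Fintype A] (ψ : A → ZMod 2)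
    (hψ : ∀ a b, ψ (a + b) = ψ a + ψ b) {a₀ : A} (h : ψ a₀ ≠ 0) : ∑ a, sg (ψ a) = 0 := by
  have h1 : ∑ a, sg (ψ a) = ∑ a, sg (ψ (a + a₀)) :=
    (Equiv.sum_comp (Equiv.addRight a₀) (fun a => sg (ψ a))).symm
  have h2 : ∑ a, sg (ψ (a + a₀)) = - ∑ a, sg (ψ a) := by
    rw [← Finset.sum_neg_distrib]
    refine Finset.sum_congr rfl fun a _ => ?_
    rw [hψ, sg_add, sg_ne _ h]
    ring
  omega

section Fourier

variable {K : ℕ}

theorem sum_sg_dot {i : Fin K → ZMod 2} (hi : i ≠ 0) :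
    ∑ c : Fin K → ZMod 2, sg (c ⬝ᵥ i) = 0 := by
  obtain ⟨j, hj⟩ := Function.ne_iff.mp hi
  refine sum_sg_eq_zero (fun c : Fin K → ZMod 2 => c ⬝ᵥ i) (fun a b => add_dotProduct a b i)
    (a₀ := Pi.single j 1) ?_
  simpa using hj

theorem sum_sg_dot' {c : Fin K → ZMod 2} (hc : c ≠ 0) :
    ∑ i : Fin K → ZMod 2, sg (c ⬝ᵥ i) = 0 := by
  have := sum_sg_dot hc
  simpa [dotProduct_comm] using this

variable {V : Type*} [NormedAddCommGroup V] [InnerProductSpace ℂ V]

/-- Fourier coefficient. -/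
noncomputable def Fo (f : (Fin K → ZMod 2) → V) (c : Fin K → ZMod 2) : V :=
  ∑ i, ((sg (c ⬝ᵥ i) : ℤ) : ℂ) • f i

theorem parseval (f : (Fin K → ZMod 2) → V) :
    ∑ c, ‖Fo f c‖ ^ 2 = 2 ^ K * ∑ i, ‖f i‖ ^ 2 := by
  have key : ((∑ c, ‖Fo f c‖ ^ 2 : ℝ) : ℂ) = ((2 ^ K * ∑ i, ‖f i‖ ^ 2 : ℝ) : ℂ) := by
    push_cast
    have h1 : ∀ x : V, ((‖x‖ : ℝ) : ℂ) ^ 2 = inner ℂ x x := fun x =>
      (inner_self_eq_norm_sq_to_K x).symm
    simp only [h1]
    have h2 : ∀ c, inner ℂ (Fo f c) (Fo f c) =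
        ∑ i, ∑ j, (((sg (c ⬝ᵥ (i + j))) : ℤ) : ℂ) * inner ℂ (f i) (f j) := by
      intro c
      unfold Fo
      rw [sum_inner]
      refine Finset.sum_congr rfl fun i _ => ?_
      rw [inner_sum]
      refine Finset.sum_congr rfl fun j _ => ?_
      rw [inner_smul_left, inner_smul_right, dotProduct_add, sg_add]
      simp only [map_intCast]
      push_cast
      ring
    simp only [h2]
    rw [Finset.sum_comm]
    rw [Finset.mul_sum]
    refine Finset.sum_congr rfl fun i _ => ?_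
    rw [Finset.sum_comm]
    rw [Finset.sum_eq_single i]
    · rw [← Finset.sum_mul]
      congr 1
      have : i + i = 0 := by
        funext j
        exact CharTwo.add_self_eq_zero (i j)
      rw [this]
      simp [sg_zero]
    · intro j _ hj
      rw [← Finset.sum_mul]
      have h3 : i + j ≠ 0 := by
        intro h0
        apply hj
        funext k
        have := congrFun h0 k
        simp only [Pi.add_apply, Pi.zero_apply] at this
        exact ((CharTwo.add_eq_zero).mp this).symm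
      have h4 := sum_sg_dot h3
      rw [← Int.cast_sum, h4]
      simp
    · intro h
      exact absurd (Finset.mem_univ _) h
  exact_mod_cast key

theorem Fo_zero (f : (Fin K → ZMod 2) → V) : Fo f 0 = ∑ i, f i := by
  unfold Fo
  refine Finset.sum_congr rfl fun i _ => ?_
  rw [zero_dotProduct, sg_zero]
  simp

theorem Fo_shift (f : (Fin K → ZMod 2) → V) (c t : Fin K → ZMod 2) :
    ∑ i, ((sg (c ⬝ᵥ i) : ℤ) : ℂ) • f (i + t) = ((sg (c ⬝ᵥ t) : ℤ) : ℂ) • Fo f c := by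
  have h1 : ∑ i, ((sg (c ⬝ᵥ i) : ℤ) : ℂ) • f (i + t) =
      ∑ i, ((sg (c ⬝ᵥ (i + t)) : ℤ) : ℂ) • f i := by
    rw [← Equiv.sum_comp (Equiv.addRight t) (fun i => ((sg (c ⬝ᵥ (i + t)) : ℤ) : ℂ) • f i)]
    refine Finset.sum_congr rfl fun i _ => ?_
    simp only [Equiv.coe_addRight]
    congr 4
    rw [add_assoc]
    have : t + t = 0 := by
      funext j
      exact CharTwo.add_self_eq_zero (t j)
    rw [this, add_zero]
  rw [h1]
  unfold Fo
  rw [Finset.smul_sum]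
  refine Finset.sum_congr rfl fun i _ => ?_
  rw [smul_smul, dotProduct_add, sg_add]
  congr 1
  push_cast
  ring

/-- The expander inequality from a bias bound. -/
theorem expander_of_bias {N : ℕ} (hN : 0 < N) (S : Fin N → (Fin K → ZMod 2))
    (hS : ∀ c : Fin K → ZMod 2, c ≠ 0 → 8 * |∑ s, sg (c ⬝ᵥ S s)| ≤ N)
    (f : (Fin K → ZMod 2) → V) :
    ∑ i, ‖(N : ℂ)⁻¹ • ∑ s, f (i + S s) - (7/8 : ℂ) • ((2:ℂ) ^ K)⁻¹ • ∑ j, f j‖ ^ 2
      ≤ (1/8) ^ 2 * ∑ i, ‖f i‖ ^ 2 := by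
  set g : (Fin K → ZMod 2) → V := fun i =>
    (N : ℂ)⁻¹ • ∑ s, f (i + S s) - (7/8 : ℂ) • ((2:ℂ) ^ K)⁻¹ • ∑ j, f j with hg
  have hNC : (N : ℂ) ≠ 0 := by exact_mod_cast hN.ne'
  have hFo : ∀ c, Fo g c = ((N : ℂ)⁻¹ * ((∑ s, sg (c ⬝ᵥ S s) : ℤ) : ℂ)) • Fo f c -
      ((7/8 : ℂ) * ((2:ℂ) ^ K)⁻¹ * ((∑ i, sg (c ⬝ᵥ i) : ℤ) : ℂ)) • Fo f 0 := by
    intro c
    have e1 : Fo g c = (N : ℂ)⁻¹ • ∑ s, ∑ i, ((sg (c ⬝ᵥ i) : ℤ) : ℂ) • f (i + S s) -
        ((7/8 : ℂ) * ((2:ℂ) ^ K)⁻¹ * ((∑ i, sg (c ⬝ᵥ i) : ℤ) : ℂ)) • Fo f 0 := by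
      rw [Finset.sum_comm, Finset.smul_sum, Fo_zero]
      push_cast
      rw [mul_smul, Finset.sum_smul, Finset.smul_sum, ← Finset.sum_sub_distrib]
      unfold Fo
      refine Finset.sum_congr rfl fun i _ => ?_
      simp only [hg]
      rw [smul_sub]
      congr 1
      · rw [smul_comm, Finset.smul_sum]
      · rw [smul_comm, mul_smul]
        congr 1
        rw [smul_comm]
    rw [e1]
    congr 1
    simp only [Fo_shift]
    rw [← Finset.sum_smul, smul_smul]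
    push_cast
    rfl
  have hbound : ∀ c, ‖Fo g c‖ ≤ (1/8) * ‖Fo f c‖ := by
    intro c
    rw [hFo c]
    by_cases hc : c = 0
    · subst hc
      have h1 : (∑ s, sg ((0 : Fin K → ZMod 2) ⬝ᵥ S s)) = (N : ℤ) := by
        simp [sg_zero]
      have h2 : (∑ i : Fin K → ZMod 2, sg ((0 : Fin K → ZMod 2) ⬝ᵥ i)) = (2 ^ K : ℤ) := by
        simp [sg_zero]
      rw [h1, h2, ← sub_smul]
      have h3 : (N : ℂ)⁻¹ * ((N : ℤ) : ℂ) - 7 / 8 * ((2:ℂ) ^ K)⁻¹ * (((2:ℤ) ^ K : ℤ) : ℂ) = 1/8 := by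
        push_cast
        rw [inv_mul_cancel₀ hNC, mul_assoc, inv_mul_cancel₀ (pow_ne_zero K two_ne_zero)]
        norm_num
      rw [h3, norm_smul]
      apply le_of_eq
      congr 1
      norm_num
    · rw [sum_sg_dot' hc]
      simp only [Int.cast_zero, mul_zero, zero_smul, sub_zero]
      rw [norm_smul]
      apply mul_le_mul_of_nonneg_right _ (norm_nonneg _)
      have h1 := hS c hc
      rw [norm_mul, norm_inv, Complex.norm_natCast, Complex.norm_intCast]
      have h2 : (8 : ℝ) * |((∑ s, sg (c ⬝ᵥ S s) : ℤ) : ℝ)| ≤ N := by exact_mod_cast h1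
      have hN' : (0 : ℝ) < N := by exact_mod_cast hN
      rw [inv_mul_le_iff₀ hN']
      linarith
  have p1 := parseval g
  have p2 := parseval f
  have h4 : ∑ c, ‖Fo g c‖ ^ 2 ≤ ∑ c, (1/8) ^ 2 * ‖Fo f c‖ ^ 2 := by
    refine Finset.sum_le_sum fun c _ => ?_
    rw [← mul_pow]
    exact pow_le_pow_left₀ (norm_nonneg _) (hbound c) 2
  rw [← Finset.mul_sum, p1, p2] at h4
  have h5 : (0 : ℝ) < 2 ^ K := by positivity
  have h6 : (2:ℝ) ^ K * ∑ i, ‖g i‖ ^ 2 ≤ 2 ^ K * ((1/8) ^ 2 * ∑ i, ‖f i‖ ^ 2) := by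
    linarith
  exact le_of_mul_le_mul_left h6 h5

end Fourier

/-- The small-bias set, over a field with `2 ^ r` elements. -/
theorem bias_field {F : Type*} [Field F] [Fintype F] [DecidableEq F] [Algebra (ZMod 2) F] {K : ℕ}
    (φ : F →ₗ[ZMod 2] ZMod 2) (hφ : φ ≠ 0) (c : Fin K → ZMod 2) (hc : c ≠ 0) :
    |∑ s : F × F, sg (c ⬝ᵥ fun j : Fin K => φ (s.1 * s.2 ^ (j : ℕ)))| ≤
      (Fintype.card F : ℤ) * K := by
  classical
  set p : Polynomial F := ∑ j : Fin K, Polynomial.monomial (j : ℕ) (algebraMap (ZMod 2) F (c j))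
    with hp
  have hp0 : p ≠ 0 := by
    obtain ⟨j, hj⟩ := Function.ne_iff.mp hc
    intro h0
    have h1 : p.coeff j = algebraMap (ZMod 2) F (c j) := by
      rw [hp, Polynomial.finsetSum_coeff]
      rw [Finset.sum_eq_single j]
      · simp
      · intro i _ hi
        rw [Polynomial.coeff_monomial, if_neg]
        intro h
        exact hi (Fin.ext h)
      · intro h
        exact absurd (Finset.mem_univ _) h
    rw [h0, Polynomial.coeff_zero] at h1
    apply hj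
    have : algebraMap (ZMod 2) F (c j) = algebraMap (ZMod 2) F 0 := by rw [← h1, map_zero]
    exact (algebraMap (ZMod 2) F).injective this
  have hdeg : p.natDegree ≤ K := by
    rw [hp]
    refine Polynomial.natDegree_sum_le_of_forall_le _ _ fun j _ => ?_
    exact (Polynomial.natDegree_monomial_le _).trans j.2.le
  have heval : ∀ a b : F, (c ⬝ᵥ fun j : Fin K => φ (a * b ^ (j : ℕ))) = φ (a * p.eval b) := by
    intro a b
    rw [hp, Polynomial.eval_finsetSum, Finset.mul_sum, map_sum]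
    unfold dotProduct
    refine Finset.sum_congr rfl fun j _ => ?_
    rw [Polynomial.eval_monomial, ← smul_eq_mul (c j), ← map_smul]
    congr 1
    rw [Algebra.smul_def]
    ring
  rw [Fintype.sum_prod_type_right]
  have hinner : ∀ b : F, ∑ a : F, sg (c ⬝ᵥ fun j : Fin K => φ (a * b ^ (j : ℕ))) =
      if p.eval b = 0 then (Fintype.card F : ℤ) else 0 := by
    intro b
    simp only [heval]
    split_ifs with h
    · simp [h, sg_zero]
    · obtain ⟨v, hv⟩ : ∃ v, φ v ≠ 0 := by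
        by_contra hcon
        push Not at hcon
        exact hφ (LinearMap.ext hcon)
      refine sum_sg_eq_zero (fun a => φ (a * p.eval b)) (fun a a' => by rw [add_mul, map_add])
        (a₀ := v / p.eval b) ?_
      rwa [div_mul_cancel₀ _ h]
  simp only [hinner]
  rw [← Finset.sum_filter, Finset.sum_const, nsmul_eq_mul]
  have hcard : (Finset.univ.filter fun b : F => p.eval b = 0).card ≤ K := by
    have h1 : (Finset.univ.filter fun b : F => p.eval b = 0) ⊆ p.roots.toFinset := by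
      intro b hb
      rw [Multiset.mem_toFinset, Polynomial.mem_roots hp0]
      exact (Finset.mem_filter.mp hb).2
    exact (Finset.card_le_card h1).trans
      ((Multiset.toFinset_card_le _).trans ((Polynomial.card_roots' p).trans hdeg))
  rw [abs_of_nonneg (by positivity), mul_comm]
  exact mul_le_mul_of_nonneg_left (by exact_mod_cast hcard) (by positivity)

/-- OFFER 1 (small-bias expander on `F_2^K`, Hilbert-space valued). -/
theorem small_bias_expander (K r : ℕ) (hr : 8 * K ≤ 2 ^ r) :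
    ∃ S : Fin (4 ^ r) → (Fin K → ZMod 2),
      ∀ (V : Type) [NormedAddCommGroup V] [InnerProductSpace ℂ V]
        (f : (Fin K → ZMod 2) → V),
        ∑ i, ‖((4:ℂ) ^ r)⁻¹ • ∑ s, f (i + S s) - (7/8 : ℂ) • ((2:ℂ) ^ K)⁻¹ • ∑ j, f j‖ ^ 2
          ≤ (1/8) ^ 2 * ∑ i, ‖f i‖ ^ 2 := by
  suffices h : ∃ S : Fin (4 ^ r) → (Fin K → ZMod 2),
      ∀ c : Fin K → ZMod 2, c ≠ 0 → 8 * |∑ s, sg (c ⬝ᵥ S s)| ≤ ((4 ^ r : ℕ) : ℤ) by
    obtain ⟨S, hS⟩ := h
    refine ⟨S, fun V _ _ f => ?_⟩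
    have := expander_of_bias (V := V) (N := 4 ^ r) (by positivity) S hS f
    push_cast at this
    exact this
  rcases Nat.eq_zero_or_pos r with hr0 | hr0
  · -- then `K = 0`
    subst hr0
    have hK : K = 0 := by omega
    subst hK
    exact ⟨fun _ => 0, fun c hc => absurd (Subsingleton.elim c 0) hc⟩
  · classical
    let _ : Fintype (GaloisField 2 r) := Fintype.ofFinite _
    have hcardF : Fintype.card (GaloisField 2 r) = 2 ^ r := by
      rw [← Nat.card_eq_fintype_card, GaloisField.card 2 r hr0.ne']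
    have hcard : Fintype.card (GaloisField 2 r × GaloisField 2 r) = 4 ^ r := by
      rw [Fintype.card_prod, hcardF, ← mul_pow]
      norm_num
    let e := Fintype.equivFinOfCardEq hcard
    obtain ⟨φ, hφ⟩ : ∃ φ : Module.Dual (ZMod 2) (GaloisField 2 r), φ 1 ≠ 0 := by
      by_contra hcon
      push Not at hcon
      exact one_ne_zero ((Module.forall_dual_apply_eq_zero_iff (ZMod 2) (1 : GaloisField 2 r)).mp hcon)
    have hφ0 : φ ≠ 0 := by
      rintro rfl
      exact hφ rfl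
    refine ⟨fun s => fun j : Fin K => φ ((e.symm s).1 * (e.symm s).2 ^ (j : ℕ)), fun c hc => ?_⟩
    have h1 := bias_field φ hφ0 c hc
    have h2 : ∑ s : Fin (4 ^ r), sg (c ⬝ᵥ fun j : Fin K =>
        φ ((e.symm s).1 * (e.symm s).2 ^ (j : ℕ))) =
        ∑ s : GaloisField 2 r × GaloisField 2 r, sg (c ⬝ᵥ fun j : Fin K => φ (s.1 * s.2 ^ (j : ℕ))) :=
      Equiv.sum_comp e.symm (fun s : GaloisField 2 r × GaloisField 2 r =>
        sg (c ⬝ᵥ fun j : Fin K => φ (s.1 * s.2 ^ (j : ℕ))))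
    rw [h2]
    rw [hcardF] at h1
    have h3 : (8 : ℤ) * K ≤ 2 ^ r := by exact_mod_cast hr
    have h4 : (0 : ℤ) ≤ 2 ^ r := by positivity
    calc 8 * |∑ s : GaloisField 2 r × GaloisField 2 r, sg (c ⬝ᵥ fun j : Fin K =>
          φ (s.1 * s.2 ^ (j : ℕ)))| ≤ 8 * (((2 ^ r : ℕ) : ℤ) * K) := by linarith
      _ = 2 ^ r * (8 * K) := by push_cast; ring
      _ ≤ 2 ^ r * 2 ^ r := mul_le_mul_of_nonneg_left h3 h4
      _ = ((4 ^ r : ℕ) : ℤ) := by
        push_cast
        rw [← mul_pow]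
        norm_num

end Pool.Agent.Helper32.Gam
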